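import Pool.Agent.W16.CM.Stm

/-!
Project CM (helper16), part KOR: Korselt's criterion and the number of Fermat liars.
-/

open Finset

namespace Pool.Agent.W140.CM

open Pool.Agent.W16.CM

theorem one_sub_sum_le (S : Finset ℕ) (x : ℕ → ℝ) (h0 : ∀ p ∈ S, 0 ≤ x p)
    (h1 : ∀ p ∈ S, x p ≤ 1) : 1 - ∑ p ∈ S, x p ≤ ∏ p ∈ S, (1 - x p) := by
  classical
  induction S using Finset.induction_on with
  | empty => simp
  | insert a s ha ih =>
    rw [Finset.sum_insert ha, Finset.prod_insert ha]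
    have h2 := ih (fun p hp => h0 p (Finset.mem_insert_of_mem hp))
      (fun p hp => h1 p (Finset.mem_insert_of_mem hp))
    have h3 := h0 a (Finset.mem_insert_self a s)
    have h4 := h1 a (Finset.mem_insert_self a s)
    have h5 : ∏ p ∈ s, (1 - x p) ≤ 1 := Finset.prod_le_one
      (fun p hp => by
        have := h1 p (Finset.mem_insert_of_mem hp)
        linarith)
      (fun p hp => by
        have := h0 p (Finset.mem_insert_of_mem hp)
        linarith)
    nlinarith

theorem kor : St_KOR := by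
  classical
  intro Q S k z hQ hk hz hcop hS hp h1
  obtain ⟨n, hn⟩ : ∃ n, n = ∏ p ∈ S, p := ⟨_, rfl⟩
  obtain ⟨L, hL⟩ : ∃ L, L = ∏ r ∈ Q, r := ⟨_, rfl⟩
  rw [← hn] at h1 ⊢
  rw [← hL] at hcop hp
  have hn1 : 1 ≤ n := by
    rw [hn]
    exact Finset.prod_pos fun p hpS => (hp p hpS).1.pos
  have hLn : L ∣ n - 1 := by
    rw [hL]
    refine Finset.prod_primes_dvd _ (fun r hr => (hQ r hr).prime) fun r hr => ?_
    exact (Nat.modEq_iff_dvd' hn1).1 (h1 r hr).symm
  have hkn : k ∣ n - 1 := by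
    refine (Nat.modEq_iff_dvd' hn1).1 (Nat.ModEq.symm ?_)
    rw [hn]
    refine Finset.prod_induction (fun p => p) (fun m => m ≡ 1 [MOD k]) ?_ (Nat.ModEq.refl 1) ?_
    · intro a b ha hb
      exact (ha.mul hb)
    · intro p hpS
      obtain ⟨_, _, d, _, _, he⟩ := hp p hpS
      show p ≡ 1 [MOD k]
      rw [he]
      unfold Nat.ModEq
      rw [Nat.add_mod, Nat.mul_mod_left, zero_add, Nat.mod_mod]
  have hpn : ∀ p ∈ S, p - 1 ∣ n - 1 := by
    intro p hpS
    obtain ⟨_, _, d, hd, _, he⟩ := hp p hpS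
    rw [he, Nat.add_sub_cancel]
    refine dvd_trans (Nat.mul_dvd_mul_right hd k) ?_
    rw [mul_comm]
    exact hcop.mul_dvd_of_dvd_of_dvd hkn hLn
  have hpdvd : ∀ p ∈ S, p ∣ n := fun p hpS => by
    rw [hn]; exact Finset.dvd_prod_of_mem _ hpS
  obtain ⟨p₀, hp₀⟩ := hS
  have hn2 : 2 ≤ n := (hp p₀ hp₀).1.two_le.trans (Nat.le_of_dvd hn1 (hpdvd p₀ hp₀))
  refine ⟨?_, ?_⟩
  · intro hpr
    have e : p₀ = n := (Nat.prime_dvd_prime_iff_eq (hp p₀ hp₀).1 hpr).1 (hpdvd p₀ hp₀)
    obtain ⟨hpp, _, d, hd, hdL, he⟩ := hp p₀ hp₀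
    have h2 : L ∣ d * k := by
      have h3 : n - 1 = d * k := by rw [← e, he, Nat.add_sub_cancel]
      rw [← h3]
      exact hLn
    have h4 : L ∣ d := hcop.symm.dvd_of_dvd_mul_right h2
    have h5 : d = 0 := Nat.eq_zero_of_dvd_of_lt h4 hdL
    rw [he, h5, zero_mul, zero_add] at hpp
    exact Nat.not_prime_one hpp
  · have hliar : ∀ a, n.Coprime a → a ^ (n - 1) ≡ 1 [MOD n] := by
      intro a ha
      have ha0 : a ≠ 0 := by
        rintro rfl
        rw [Nat.coprime_zero_right] at ha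
        omega
      have ha1 : 1 ≤ a ^ (n - 1) := Nat.one_le_pow _ _ (Nat.pos_of_ne_zero ha0)
      refine Nat.ModEq.symm ((Nat.modEq_iff_dvd' ha1).2 ?_)
      have h6 : (∏ p ∈ S, p) ∣ a ^ (n - 1) - 1 := by
        refine Finset.prod_primes_dvd _ (fun p hpS => (hp p hpS).1.prime) fun p hpS => ?_
        refine (Nat.modEq_iff_dvd' ha1).1 (Nat.ModEq.symm ?_)
        have hcp : Nat.Coprime a p :=
          (Nat.Coprime.coprime_dvd_left (hpdvd p hpS) ha).symm
        have h7 := Nat.ModEq.pow_totient hcp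
        rw [Nat.totient_prime (hp p hpS).1] at h7
        obtain ⟨m, hm⟩ := hpn p hpS
        rw [hm, pow_mul]
        have h8 := h7.pow m
        rwa [one_pow] at h8
      rw [← hn] at h6
      exact h6
    have hcard : n.totient ≤ ((Finset.range n).filter
        (fun a => a ^ (n - 1) ≡ 1 [MOD n])).card := by
      rw [Nat.totient_eq_card_coprime]
      refine Finset.card_le_card fun a ha => ?_
      rw [Finset.mem_filter] at ha ⊢
      exact ⟨ha.1, hliar a ha.2⟩
    have htot : (1 - (S.card : ℝ) / z) * (n : ℝ) ≤ (n.totient : ℝ) := by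
      have h9 := Nat.totient_eq_mul_prod_factors n
      have h10 : n.primeFactors = S := by
        rw [hn]
        exact Nat.primeFactors_prod fun p hpS => (hp p hpS).1
      rw [h10] at h9
      have h11 : (n.totient : ℝ) = n * ∏ p ∈ S, (1 - (p : ℝ)⁻¹) := by
        have := congrArg (fun q : ℚ => (q : ℝ)) h9
        simpa using this
      rw [h11, mul_comm]
      refine mul_le_mul_of_nonneg_left ?_ (Nat.cast_nonneg n)
      refine le_trans ?_ (one_sub_sum_le S (fun p => (p : ℝ)⁻¹)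
        (fun p _ => by positivity) (fun p hpS => ?_))
      · have h12 : ∑ p ∈ S, (p : ℝ)⁻¹ ≤ ∑ p ∈ S, (1 : ℝ) / z := by
          refine Finset.sum_le_sum fun p hpS => ?_
          rw [one_div]
          have h13 : (z : ℝ) ≤ p := by exact_mod_cast (hp p hpS).2.1.le
          have h14 : (0 : ℝ) < z := by exact_mod_cast hz
          exact inv_anti₀ h14 h13
        rw [Finset.sum_const, nsmul_eq_mul] at h12
        have h15 : (S.card : ℝ) * (1 / z) = (S.card : ℝ) / z := by ring
        rw [h15] at h12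
        linarith
      · have h13 : (1 : ℝ) ≤ p := by exact_mod_cast (hp p hpS).1.one_lt.le
        exact inv_le_one_of_one_le₀ h13
    refine htot.trans ?_
    exact_mod_cast hcard

end Pool.Agent.W140.CM
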